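import Pool.Agent.W641.FB.Final
import Pool.Agent.W991.FB.Top

/-!
# MP_cd67d3_gt: finite bases of homeomorphism groups consisting of differentiable homeomorphisms

For every `n` there is a finite set `S` of real-analytic diffeomorphisms of `ℝⁿ` such that the
closure of the group generated by `S` in `Homeo(ℝⁿ)` is the closure of the group of all
`C¹`-diffeomorphisms. In dimension one the generated group is dense in `Homeo(ℝ)`. As the
`C¹`-diffeomorphisms are dense in `Homeo(ℝⁿ)` for all `n ≠ 4` (classical for `n = 2`, Moise for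
`n = 3`, Connell, Kirby and Siebenmann for `n ≥ 5`), `S` is a finite basis of `Homeo(ℝⁿ)` for all
`n ≠ 4`.

The set `S` consists of the maps which change one coordinate `x_i` by
`x_i + 1`, `x_i + √2`, `2 x_i`, `-x_i`, `((1+s) x_i + (s-1) √(1+x_i²))/2` with `s = e, e^√2`,
and of the shears `x_i + x_j`.

Idea of the proof. Let `A` be the closure. Blowing down the fifth map one gets
`x ↦ max(x, s x)`, hence all increasing homeomorphisms of one coordinate. Conjugating shears with
them and using the Stone-Weierstrass theorem for exponentials, `A` contains all shears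
`x_i + g(x)`, `g` continuous and independent of `x_i`; conjugating these one gets the stretches
`max(x_i, e^{t(x)} x_i)` and, by interpolation on a grid, all homeomorphisms which change only one
coordinate. Every Lipschitz perturbation of the identity with a small constant is a product of
such maps, and a `C¹`-diffeomorphism `h` is joined to its derivative by the path `h(tx)/t`.
-/

set_option autoImplicit false

open Topology

namespace Pool.Agent.Results.MP_cd67d3_gt.FiniteAnalyticBasis

open scoped ContDiff

/-- The topology of the homeomorphism group of `ℝⁿ`: the coarsest one for which `h ↦ h` and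
`h ↦ h⁻¹` are continuous maps to `C(ℝⁿ, ℝⁿ)` with the compact-open topology. -/
@[instance_reducible] def homeoTop (n : ℕ) : TopologicalSpace ((Fin n → ℝ) ≃ₜ (Fin n → ℝ)) :=
  TopologicalSpace.induced
    (fun h => ((⟨h, h.continuous⟩ : C(Fin n → ℝ, Fin n → ℝ)),
      (⟨h.symm, h.symm.continuous⟩ : C(Fin n → ℝ, Fin n → ℝ))))
    inferInstance

/-- The set of the `C¹`-diffeomorphisms of `ℝⁿ`. -/
def C1Diffeos (n : ℕ) : Set ((Fin n → ℝ) ≃ₜ (Fin n → ℝ)) :=
  {h | ContDiff ℝ 1 h ∧ ContDiff ℝ 1 h.symm}

/-- For every `n` there is a finite set `S` of real-analytic diffeomorphisms of `ℝⁿ` such that the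
group generated by `S` has the same closure in `Homeo(ℝⁿ)` as the group of all
`C¹`-diffeomorphisms; for `n = 1` the group generated by `S` is dense in `Homeo(ℝ)`. -/
theorem result (n : ℕ) : ∃ S : Set ((Fin n → ℝ) ≃ₜ (Fin n → ℝ)), S.Finite ∧
    (∀ g ∈ S, ContDiff ℝ ω g ∧ ContDiff ℝ ω g.symm) ∧
    closure[homeoTop n] (Subgroup.closure S : Set ((Fin n → ℝ) ≃ₜ (Fin n → ℝ))) =
      closure[homeoTop n] (C1Diffeos n) ∧
    (n = 1 → closure[homeoTop n] (Subgroup.closure S : Set ((Fin n → ℝ) ≃ₜ (Fin n → ℝ))) =
      Set.univ) :=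
  ⟨Pool.Agent.W641.FB.GenSet n, Pool.Agent.W641.FB.GenSet_finite n,
    Pool.Agent.W641.FB.GenSet_smooth n, (Pool.Agent.W641.FB.main0 Pool.Agent.W991.FB.top n).1,
    fun h => @Dense.closure_eq _ (homeoTop n) _
      ((Pool.Agent.W641.FB.main0 Pool.Agent.W991.FB.top n).2 h)⟩

end Pool.Agent.Results.MP_cd67d3_gt.FiniteAnalyticBasis
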